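import Mathlib

namespace Pool.Agent.Lib.MP_a1cdeb_nt

/-- If `A * B = q * C^2` with `A, B` coprime and `q` prime then one of `A`, `B` is plus or minus a
square and the other is divisible by `q`, so `A + B` is plus or minus a square modulo `q`. -/
lemma add_sq_mod {q A B C : ℤ} (hq : Prime q) (hAB : IsCoprime A B) (h : A * B = q * C ^ 2) :
    ∃ b : ℤ, q ∣ (A + B - b ^ 2) ∨ q ∣ (A + B + b ^ 2) := by
  have hdvd : q ∣ A * B := ⟨C ^ 2, h⟩
  rcases hq.dvd_or_dvd hdvd with ⟨A', hA'⟩ | ⟨B', hB'⟩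
  · subst hA'
    have h2 : A' * B = C ^ 2 := by
      have : q * (A' * B) = q * C ^ 2 := by rw [← h]; ring
      exact mul_left_cancel₀ hq.ne_zero this
    have hc : IsCoprime B A' := (IsCoprime.of_mul_left_right hAB).symm
    obtain ⟨b, hb⟩ := Int.sq_of_isCoprime hc (by rw [mul_comm]; exact h2)
    refine ⟨b, ?_⟩
    rcases hb with hb | hb
    · left; exact ⟨A', by rw [hb]; ring⟩
    · right; exact ⟨A', by rw [hb]; ring⟩
  · subst hB'
    have h2 : A * B' = C ^ 2 := by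
      have : q * (A * B') = q * C ^ 2 := by rw [← h]; ring
      exact mul_left_cancel₀ hq.ne_zero this
    have hc : IsCoprime A B' := IsCoprime.of_mul_right_right hAB
    obtain ⟨b, hb⟩ := Int.sq_of_isCoprime hc h2
    refine ⟨b, ?_⟩
    rcases hb with hb | hb
    · left; exact ⟨B', by rw [hb]; ring⟩
    · right; exact ⟨B', by rw [hb]; ring⟩

/-- coprime `m, n` with `k^2 = m^4 - 15 m^2 n^2 + n^4` have opposite parity. -/
lemma parity {m n k : ℤ} (hmn : IsCoprime m n) (h : k ^ 2 = m ^ 4 - 15 * m ^ 2 * n ^ 2 + n ^ 4) :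
    (Even m ∧ Odd n) ∨ (Odd m ∧ Even n) := by
  rcases Int.even_or_odd m with hm | hm <;> rcases Int.even_or_odd n with hn | hn
  · exfalso
    have h2 : IsUnit (2 : ℤ) := hmn.isUnit_of_dvd' hm.two_dvd hn.two_dvd
    exact absurd h2 (by decide)
  · exact Or.inl ⟨hm, hn⟩
  · exact Or.inr ⟨hm, hn⟩
  · exfalso
    obtain ⟨m', rfl⟩ := hm
    obtain ⟨n', rfl⟩ := hn
    have h4 : (4 : ℤ) ∣ k ^ 2 - 3 := by
      rw [h]
      refine ⟨4 * m' ^ 4 + 8 * m' ^ 3 + 6 * m' ^ 2 + 2 * m' - 15 * (4 * (m' ^ 2 + m') * (n' ^ 2 + n') + (m' ^ 2 + m') + (n' ^ 2 + n')) + 4 * n' ^ 4 + 8 * n' ^ 3 + 6 * n' ^ 2 + 2 * n' - 4, ?_⟩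
      ring
    have h3 : (k : ZMod 4) ^ 2 - 3 = 0 := by
      have := (ZMod.intCast_zmod_eq_zero_iff_dvd (k ^ 2 - 3) 4).mpr (by exact_mod_cast h4)
      push_cast at this
      exact this
    revert h3
    generalize (k : ZMod 4) = z
    revert z
    decide

/-- the common core of the two local conditions: if `D^2 = k^2 + q (m n)^2` with `m, n` coprime of
opposite parity, `D` odd, and no prime divides `D`, `m*n` simultaneously, then `D` is plus or minus a
square modulo the prime `q`. -/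
lemma core {q D k M : ℤ} (hq : Prime q) (hD : Odd D) (hM : Even M) (hDM : IsCoprime D M)
    (h : D ^ 2 = k ^ 2 + q * M ^ 2) :
    ∃ b : ℤ, q ∣ (D - b ^ 2) ∨ q ∣ (D + b ^ 2) := by
  obtain ⟨C, rfl⟩ := hM
  have hk : Odd k := by
    rcases Int.even_or_odd k with hk | hk
    · exfalso
      obtain ⟨k', rfl⟩ := hk
      obtain ⟨D', rfl⟩ := hD
      have : (2 * D' + 1) ^ 2 = (k' + k') ^ 2 + q * (C + C) ^ 2 := h
      have h2 : 4 * (D' ^ 2 + D') + 1 = 4 * (k' ^ 2 + q * C ^ 2) := by linarith [this]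
      omega
    · exact hk
  obtain ⟨D', hD'⟩ := hD
  obtain ⟨k', hk'⟩ := hk
  -- A = (D-k)/2 = D' - k', B = (D+k)/2 = D' + k' + 1
  have hprod : (D' - k') * (D' + k' + 1) = q * C ^ 2 := by
    have : 4 * ((D' - k') * (D' + k' + 1)) = 4 * (q * C ^ 2) := by
      subst hD' hk'
      linarith [h]
    linarith
  have hcop : IsCoprime (D' - k') (D' + k' + 1) := by
    rw [Int.isCoprime_iff_gcd_eq_one]
    by_contra hne
    obtain ⟨l, hl, hldvd⟩ := Nat.exists_prime_and_dvd hne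
    have hl' : Prime (l : ℤ) := Nat.prime_iff_prime_int.mp hl
    have hA : (l : ℤ) ∣ D' - k' := (Int.natCast_dvd_natCast.mpr hldvd).trans (Int.gcd_dvd_left ..)
    have hB : (l : ℤ) ∣ D' + k' + 1 := (Int.natCast_dvd_natCast.mpr hldvd).trans (Int.gcd_dvd_right ..)
    have hDl : (l : ℤ) ∣ D := by
      have h3 := dvd_add hA hB
      have e : D' - k' + (D' + k' + 1) = D := by rw [hD']; ring
      rwa [e] at h3
    have hCl : (l : ℤ) ∣ C := by
      have h2 : (l : ℤ) ^ 2 ∣ q * C ^ 2 := by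
        rw [← hprod, sq]; exact mul_dvd_mul hA hB
      by_contra hC
      have hC2 : ¬ (l : ℤ) ∣ C ^ 2 := fun h => hC (hl'.dvd_of_dvd_pow h)
      have hq2 : (l : ℤ) ^ 2 ∣ q := by
        have hcop2 : IsCoprime ((l : ℤ) ^ 2) (C ^ 2) := by
          apply IsCoprime.pow
          exact (Prime.coprime_iff_not_dvd hl').mpr hC
        exact hcop2.dvd_of_dvd_mul_right h2
      obtain ⟨t, ht⟩ := hq2
      rcases hq.irreducible.isUnit_or_isUnit (show q = (l : ℤ) * ((l : ℤ) * t) by rw [ht]; ring) with hu | hu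
      · exact hl'.not_isUnit hu
      · exact hl'.not_isUnit (isUnit_of_mul_isUnit_left hu)
    have : IsUnit (l : ℤ) := hDM.isUnit_of_dvd' hDl (by
      rw [← two_mul]; exact Dvd.dvd.mul_left hCl 2)
    exact hl'.not_isUnit this
  obtain ⟨b, hb⟩ := add_sq_mod hq hcop hprod
  refine ⟨b, ?_⟩
  have e : D' - k' + (D' + k' + 1) = D := by rw [hD']; ring
  rw [e] at hb
  exact hb

/-- the condition at 13. -/
lemma cond13 {m n k : ℤ} (hmn : IsCoprime m n) (h : k ^ 2 = m ^ 4 - 15 * m ^ 2 * n ^ 2 + n ^ 4) :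
    ∃ b : ℤ, (13 : ℤ) ∣ (m ^ 2 - n ^ 2 - b ^ 2) ∨ (13 : ℤ) ∣ (m ^ 2 - n ^ 2 + b ^ 2) := by
  have hp := parity hmn h
  apply core (k := k) (M := m * n) (by norm_num : Prime (13 : ℤ))
  · rcases hp with ⟨h1, h2⟩ | ⟨h1, h2⟩
    · exact ((Int.even_pow' two_ne_zero).mpr h1).sub_odd (h2.pow)
    · exact (h1.pow).sub_even ((Int.even_pow' two_ne_zero).mpr h2)
  · rcases hp with ⟨h1, h2⟩ | ⟨h1, h2⟩
    · exact h1.mul_right n
    · exact h2.mul_left m
  · apply IsCoprime.mul_right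
    · -- m^2 - n^2 coprime to m
      have h1 : IsCoprime (n ^ 2) m := (hmn.symm).pow_left
      have : IsCoprime (-n ^ 2 + m * m) m := (h1.neg_left).add_mul_left_left m
      convert this using 1; ring
    · have h1 : IsCoprime (m ^ 2) n := hmn.pow_left
      have : IsCoprime (m ^ 2 + n * (-n)) n := h1.add_mul_left_left (-n)
      convert this using 1; ring
  · rw [h]; ring

/-- the condition at 17. -/
lemma cond17 {m n k : ℤ} (hmn : IsCoprime m n) (h : k ^ 2 = m ^ 4 - 15 * m ^ 2 * n ^ 2 + n ^ 4) :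
    ∃ b : ℤ, (17 : ℤ) ∣ (m ^ 2 + n ^ 2 - b ^ 2) ∨ (17 : ℤ) ∣ (m ^ 2 + n ^ 2 + b ^ 2) := by
  have hp := parity hmn h
  apply core (k := k) (M := m * n) (by norm_num : Prime (17 : ℤ))
  · rcases hp with ⟨h1, h2⟩ | ⟨h1, h2⟩
    · exact ((Int.even_pow' two_ne_zero).mpr h1).add_odd (h2.pow)
    · exact (h1.pow).add_even ((Int.even_pow' two_ne_zero).mpr h2)
  · rcases hp with ⟨h1, h2⟩ | ⟨h1, h2⟩
    · exact h1.mul_right n
    · exact h2.mul_left m
  · apply IsCoprime.mul_right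
    · have h1 : IsCoprime (n ^ 2) m := (hmn.symm).pow_left
      have : IsCoprime (n ^ 2 + m * m) m := h1.add_mul_left_left m
      convert this using 1; ring
    · have h1 : IsCoprime (m ^ 2) n := hmn.pow_left
      have : IsCoprime (m ^ 2 + n * n) n := h1.add_mul_left_left n
      convert this using 1; ring
  · rw [h]; ring

end Pool.Agent.Lib.MP_a1cdeb_nt
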