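import Mathlib

namespace Pool.Agent.Lib.MP_a1cdeb_nt

open Finset

variable {F : Type*} [Field F] [Fintype F] [DecidableEq F]

/-- The conic `x^2 - D = w^2` has `q - 1` points. -/
def conicEquiv (h2 : (2 : F) ≠ 0) {D : F} (hD : D ≠ 0) :
    {xw : F × F // xw.2 ^ 2 = xw.1 ^ 2 - D} ≃ Fˣ where
  toFun z := Units.mk0 (z.1.1 - z.1.2) (by
    intro h0
    have h := z.2
    have : (z.1.1 - z.1.2) * (z.1.1 + z.1.2) = D := by
      have : (z.1.1 - z.1.2) * (z.1.1 + z.1.2) = z.1.1 ^ 2 - z.1.2 ^ 2 := by ring
      rw [this, h]; ring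
    rw [h0, zero_mul] at this
    exact hD this.symm)
  invFun u := ⟨((u + D / u) / 2, (D / u - u) / 2), by
    have hu : (u : F) ≠ 0 := u.ne_zero
    field_simp
    ring⟩
  left_inv z := by
    have h := z.2
    have hne : z.1.1 - z.1.2 ≠ 0 := by
      intro h0
      have : (z.1.1 - z.1.2) * (z.1.1 + z.1.2) = D := by
        have : (z.1.1 - z.1.2) * (z.1.1 + z.1.2) = z.1.1 ^ 2 - z.1.2 ^ 2 := by ring
        rw [this, h]; ring
      rw [h0, zero_mul] at this
      exact hD this.symm
    have hD' : D / (z.1.1 - z.1.2) = z.1.1 + z.1.2 := by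
      rw [div_eq_iff hne]
      have : (z.1.1 + z.1.2) * (z.1.1 - z.1.2) = z.1.1 ^ 2 - z.1.2 ^ 2 := by ring
      rw [this, h]; ring
    ext
    · simp only [Units.val_mk0, hD']
      field_simp
      ring
    · simp only [Units.val_mk0, hD']
      field_simp
      ring
  right_inv u := by
    ext
    simp only [Units.val_mk0]
    field_simp
    ring

lemma sum_quad (hF : ringChar F ≠ 2) {D : F} (hD : D ≠ 0) :
    ∑ x : F, quadraticChar F (x ^ 2 - D) = -1 := by
  have h2 : (2 : F) ≠ 0 := Ring.two_ne_zero hF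
  have key : ∑ x : F, (quadraticChar F (x ^ 2 - D) + 1) = (Fintype.card F : ℤ) - 1 := by
    have h1 : ∀ x : F, quadraticChar F (x ^ 2 - D) + 1 =
        ((Finset.univ.filter fun w : F => w ^ 2 = x ^ 2 - D).card : ℤ) := by
      intro x
      rw [← quadraticChar_card_sqrts hF (x ^ 2 - D)]
      congr 2
      ext w
      simp
    simp_rw [h1]
    rw [← Nat.cast_sum]
    have h3 : ∑ x : F, (Finset.univ.filter fun w : F => w ^ 2 = x ^ 2 - D).card =
        Fintype.card {xw : F × F // xw.2 ^ 2 = xw.1 ^ 2 - D} := by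
      rw [Fintype.card_subtype]
      rw [← Finset.univ_product_univ, Finset.card_filter, Finset.sum_product]
      apply Finset.sum_congr rfl
      intro x _
      rw [Finset.card_filter]
    rw [h3, Fintype.card_congr (conicEquiv h2 hD), Fintype.card_units]
    have : 0 < Fintype.card F := Fintype.card_pos
    push_cast [Nat.cast_sub this]
    ring
  rw [Finset.sum_add_distrib, Finset.sum_const, Finset.card_univ, nsmul_eq_mul, mul_one] at key
  linarith

lemma sum_quad' (hF : ringChar F ≠ 2) (h : (221 : F) ≠ 0) :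
    ∑ x : F, quadraticChar F (x ^ 2 - 15 * x + 1) = -1 := by
  have h2 : (2 : F) ≠ 0 := Ring.two_ne_zero hF
  have hD : (221 / 4 : F) ≠ 0 := by
    apply div_ne_zero h
    have : (4 : F) = 2 * 2 := by norm_num
    rw [this]
    exact mul_ne_zero h2 h2
  rw [← sum_quad hF hD]
  apply Fintype.sum_equiv (Equiv.subRight (15 / 2 : F))
  intro x
  congr 1
  simp only [Equiv.subRight_apply]
  have h4 : (4 : F) ≠ 0 := by
    have : (4 : F) = 2 * 2 := by norm_num
    rw [this]
    exact mul_ne_zero h2 h2
  field_simp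
  ring

lemma exists_point (hF : ringChar F ≠ 2) (h : (221 : F) ≠ 0) :
    ∃ x y : F, ¬ IsSquare x ∧ y ^ 2 = x ^ 3 - 15 * x ^ 2 + x := by
  by_contra hcon
  push Not at hcon
  have hterm : ∀ x : F, 0 ≤ quadraticChar F (x ^ 2 - 15 * x + 1) + quadraticChar F x := by
    intro x
    by_cases hx0 : x = 0
    · subst hx0; simp
    by_cases hx : IsSquare x
    · have h1 : quadraticChar F x = 1 := (quadraticChar_one_iff_isSquare hx0).mpr hx
      rw [h1]
      have h2 : -1 ≤ quadraticChar F (x ^ 2 - 15 * x + 1) := by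
        by_cases h0 : x ^ 2 - 15 * x + 1 = 0
        · rw [h0, quadraticChar_zero]; norm_num
        · rcases quadraticChar_dichotomy h0 with h | h <;> rw [h] <;> norm_num
      linarith
    · have h1 : quadraticChar F x = -1 := by
        rw [quadraticChar_neg_one_iff_not_isSquare]; exact hx
      have h2 : ¬ IsSquare (x * (x ^ 2 - 15 * x + 1)) := by
        rintro ⟨y, hy⟩
        apply hcon x y hx
        rw [sq, ← hy]; ring
      have h3 : quadraticChar F (x * (x ^ 2 - 15 * x + 1)) = -1 := by
        rw [quadraticChar_neg_one_iff_not_isSquare]; exact h2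
      rw [map_mul, h1] at h3
      rw [h1]
      linarith
  have hsum : 0 ≤ ∑ x : F, (quadraticChar F (x ^ 2 - 15 * x + 1) + quadraticChar F x) :=
    Finset.sum_nonneg fun x _ => hterm x
  rw [Finset.sum_add_distrib, sum_quad' hF h, quadraticChar_sum_zero hF] at hsum
  norm_num at hsum

end Pool.Agent.Lib.MP_a1cdeb_nt
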