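import Mathlib

/-!
Definitions for `MP_a1cdeb_nt`: the topology of `E(K)` for an elliptic curve `E` over a topological
field `K`, and the set `S(E)` of primes `p` such that `E(ℚ)` is dense in `E(ℚ_p)`.
-/

open WeierstrassCurve Topology

namespace Pool.Agent.Lib.MP_a1cdeb_nt

/-- The topology of the projective plane `ℙ²(K)` over a topological field `K`: the quotient
topology of `K³ \ {0}`. -/
abbrev planeTopology (K : Type*) [Field K] [TopologicalSpace K] :
    TopologicalSpace (Projectivization K (Fin 3 → K)) :=
  TopologicalSpace.coinduced
    (fun v : {v : Fin 3 → K // v ≠ 0} => Projectivization.mk K v.1 v.2) inferInstance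

/-- The point of `ℙ²(K)` attached to a point of a Weierstrass curve: the point at infinity goes to
`[0 : 1 : 0]` and an affine point `(x, y)` goes to `[x : y : 1]`. -/
def toPlane {K : Type*} [Field K] {W : Affine K} : W.Point → Projectivization K (Fin 3 → K)
  | .zero => Projectivization.mk K ![0, 1, 0] (fun h => one_ne_zero (congrFun h 1))
  | .some x y _ => Projectivization.mk K ![x, y, 1] (fun h => one_ne_zero (congrFun h 2))

/-- The topology on the points of a Weierstrass curve over a topological field `K` induced by the
topology of `ℙ²(K)`. -/
abbrev pointTopology {K : Type*} [Field K] [TopologicalSpace K] (W : Affine K) :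
    TopologicalSpace W.Point :=
  TopologicalSpace.induced toPlane (planeTopology K)

open scoped Classical in
/-- The set `S(E)` of primes `p` such that (the image of) `E(ℚ)` is dense in `E(ℚ_p)`. -/
def densitySet (E : WeierstrassCurve ℚ) : Set ℕ :=
  {p | ∃ _ : Fact p.Prime,
    @Dense (Affine.Point (E⁄ℚ_[p])) (pointTopology (E⁄ℚ_[p]))
      (Set.range (Affine.Point.baseChange (W' := E) ℚ ℚ_[p]))}

end Pool.Agent.Lib.MP_a1cdeb_nt
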