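import Mathlib

namespace Pool.Agent.Lib.MP_a1cdeb_nt

open Polynomial

section
variable {p : ℕ} [hp : Fact p.Prime]

lemma toZMod_eq_zero_iff (z : ℤ_[p]) : PadicInt.toZMod z = 0 ↔ ‖z‖ < 1 := by
  rw [← RingHom.mem_ker, PadicInt.ker_toZMod, IsLocalRing.mem_maximalIdeal, PadicInt.mem_nonunits]

lemma toZMod_ne_zero_iff (z : ℤ_[p]) : PadicInt.toZMod z ≠ 0 ↔ ‖z‖ = 1 := by
  rw [Ne, toZMod_eq_zero_iff, not_lt]
  constructor
  · intro h; exact le_antisymm (PadicInt.norm_le_one z) h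
  · intro h; exact h.ge

lemma toZMod_eq_iff (z w : ℤ_[p]) : PadicInt.toZMod z = PadicInt.toZMod w ↔ ‖z - w‖ < 1 := by
  rw [← toZMod_eq_zero_iff, map_sub, sub_eq_zero]

/-- Hensel for an arbitrary polynomial at a simple root modulo `p`. -/
lemma hensel (G : ℤ_[p][X]) (a : ℤ_[p]) (h0 : PadicInt.toZMod (G.eval a) = 0)
    (h1 : PadicInt.toZMod (G.derivative.eval a) ≠ 0) :
    ∃ z : ℤ_[p], G.eval z = 0 ∧ PadicInt.toZMod z = PadicInt.toZMod a := by
  rw [toZMod_eq_zero_iff] at h0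
  rw [toZMod_ne_zero_iff] at h1
  have h := hensels_lemma (F := G) (a := a) (by
    rw [Polynomial.coe_aeval_eq_eval, h1]; simpa using h0)
  obtain ⟨z, hz, hza, -, -⟩ := h
  refine ⟨z, ?_, ?_⟩
  · rw [Polynomial.coe_aeval_eq_eval] at hz; exact hz
  · rw [toZMod_eq_iff]
    rw [Polynomial.coe_aeval_eq_eval, h1] at hza
    exact hza

lemma hensel_sqrt (a b : ℤ_[p]) (h0 : (PadicInt.toZMod a) ^ 2 = PadicInt.toZMod b)
    (h1 : PadicInt.toZMod (2 * a) ≠ 0) :
    ∃ y : ℤ_[p], y ^ 2 = b ∧ PadicInt.toZMod y = PadicInt.toZMod a := by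
  obtain ⟨z, hz, hza⟩ := hensel (X ^ 2 - C b) a (by
    simp only [eval_sub, eval_pow, eval_X, eval_C, map_sub, map_pow]
    rw [h0, sub_self]) (by
    have e : (derivative (X ^ 2 - C b)).eval a = 2 * a := by
      rw [derivative_sub, derivative_X_pow, derivative_C]
      simp
    rw [e]; exact h1)
  refine ⟨z, ?_, hza⟩
  simp only [eval_sub, eval_pow, eval_X, eval_C] at hz
  exact sub_eq_zero.mp hz

lemma toZMod_natCast_val (x : ZMod p) : PadicInt.toZMod ((x.val : ℕ) : ℤ_[p]) = x := by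
  rw [map_natCast]
  exact ZMod.natCast_zmod_val x

/-- lift of a nonsingular point modulo `p`. -/
lemma lift_point (h221 : (221 : ZMod p) ≠ 0) (h2 : (2 : ZMod p) ≠ 0) {x₀ y₀ : ZMod p}
    (hx0 : x₀ ≠ 0) (h : y₀ ^ 2 = x₀ ^ 3 - 15 * x₀ ^ 2 + x₀) :
    ∃ x y : ℤ_[p], y ^ 2 = x ^ 3 - 15 * x ^ 2 + x ∧ PadicInt.toZMod x = x₀ := by
  by_cases hy : y₀ = 0
  · subst hy
    have hq : x₀ ^ 2 - 15 * x₀ + 1 = 0 := by
      have : x₀ * (x₀ ^ 2 - 15 * x₀ + 1) = 0 := by linear_combination -h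
      rcases mul_eq_zero.mp this with h | h
      · exact absurd h hx0
      · exact h
    obtain ⟨z, hz, hza⟩ := hensel (X ^ 2 - 15 * X + 1 : ℤ_[p][X]) ((x₀.val : ℕ) : ℤ_[p]) (by
      simp only [eval_sub, eval_add, eval_pow, eval_X, eval_mul, eval_ofNat, eval_one, map_sub,
        map_add, map_pow, map_mul, map_one, map_ofNat, toZMod_natCast_val]
      exact hq) (by
      have ed : (derivative (X ^ 2 - 15 * X + 1 : ℤ_[p][X])).eval ((x₀.val : ℕ) : ℤ_[p]) =
          2 * ((x₀.val : ℕ) : ℤ_[p]) - 15 := by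
        have : derivative (X ^ 2 - 15 * X + 1 : ℤ_[p][X]) = 2 * X - 15 := by
          rw [derivative_add, derivative_sub, derivative_X_pow, derivative_mul, derivative_X,
            derivative_one, derivative_ofNat]
          simp
          rfl
        rw [this]
        simp
      rw [ed, map_sub, map_mul, map_ofNat, map_ofNat, toZMod_natCast_val]
      intro h0
      apply h221
      have e : (221 : ZMod p) = (2 * x₀ - 15) ^ 2 - 4 * (x₀ ^ 2 - 15 * x₀ + 1) := by ring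
      rw [e, hq, h0]; ring)
    refine ⟨z, 0, ?_, ?_⟩
    · simp only [eval_sub, eval_add, eval_pow, eval_X, eval_mul, eval_ofNat, eval_one] at hz
      linear_combination -z * hz
    · rw [hza, toZMod_natCast_val]
  · set X0 : ℤ_[p] := ((x₀.val : ℕ) : ℤ_[p]) with hX0
    have e1 : PadicInt.toZMod X0 = x₀ := toZMod_natCast_val x₀
    have e2 : PadicInt.toZMod ((y₀.val : ℕ) : ℤ_[p]) = y₀ := toZMod_natCast_val y₀
    obtain ⟨y, hy1, hy2⟩ := hensel_sqrt ((y₀.val : ℕ) : ℤ_[p]) (X0 ^ 3 - 15 * X0 ^ 2 + X0) (by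
      simp only [map_sub, map_add, map_pow, map_mul, map_ofNat, e1, e2]
      exact h) (by
      rw [map_mul, e2, map_ofNat]
      exact mul_ne_zero h2 hy)
    exact ⟨X0, y, hy1, e1⟩

end

end Pool.Agent.Lib.MP_a1cdeb_nt
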