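import Mathlib

namespace Pool.Agent.Lib.MP_a1cdeb_nt

lemma int_of_sq {q : ℚ} {z : ℤ} (h : q ^ 2 = z) : ∃ w : ℤ, q = w := by
  have h1 : (q ^ 2).den = 1 := by rw [h]; exact Rat.den_intCast z
  rw [Rat.den_pow] at h1
  have h2 : q.den = 1 := by
    rcases Nat.pow_eq_one.mp h1 with h | h
    · exact h
    · omega
  exact ⟨q.num, ((Rat.den_eq_one_iff q).mp h2).symm⟩

/-- Every rational point of `y^2 = x^3 - 15 x^2 + x` with `x ≠ 0` has `x = m^2/n^2` with `m, n`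
coprime and `m^4 - 15 m^2 n^2 + n^4` a square. -/
lemma rat_point {x y : ℚ} (h : y ^ 2 = x ^ 3 - 15 * x ^ 2 + x) (hx : x ≠ 0) :
    ∃ m n k : ℤ, n ≠ 0 ∧ IsCoprime m n ∧ x = (m : ℚ) ^ 2 / (n : ℚ) ^ 2 ∧
      k ^ 2 = m ^ 4 - 15 * m ^ 2 * n ^ 2 + n ^ 4 := by
  set r : ℤ := x.num with hr
  set t : ℤ := (x.den : ℤ) with ht
  have ht0 : 0 < t := by rw [ht]; exact_mod_cast x.den_pos
  have htq : (t : ℚ) ≠ 0 := by exact_mod_cast ht0.ne'
  have hxrt : x = (r : ℚ) / (t : ℚ) := by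
    rw [hr, ht]; push_cast; exact (Rat.num_div_den x).symm
  have hr0 : r ≠ 0 := by rw [hr]; exact Rat.num_ne_zero.mpr hx
  have hcop : IsCoprime r t := by
    rw [Int.isCoprime_iff_gcd_eq_one, hr, ht]
    have := x.reduced
    rw [Nat.Coprime] at this
    rw [Int.gcd_eq_natAbs]
    simpa using this
  have hN : (y * t ^ 2) ^ 2 = ((r * t * (r ^ 2 - 15 * r * t + t ^ 2) : ℤ) : ℚ) := by
    have : (y * t ^ 2) ^ 2 = y ^ 2 * (t : ℚ) ^ 4 := by ring
    rw [this, h, hxrt]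
    push_cast
    field_simp
  obtain ⟨N, hN'⟩ := int_of_sq hN
  rw [hN'] at hN
  have hNi : N ^ 2 = r * t * (r ^ 2 - 15 * r * t + t ^ 2) := by exact_mod_cast hN
  have hrpos : 0 < r := by
    rcases lt_or_gt_of_ne hr0 with hneg | hpos
    · exfalso
      have h1 : 0 < r ^ 2 - 15 * r * t + t ^ 2 := by nlinarith [mul_pos (neg_pos.mpr hneg) ht0, sq_nonneg r, sq_nonneg t]
      have h2 : r * t < 0 := mul_neg_of_neg_of_pos hneg ht0
      have h3 : r * t * (r ^ 2 - 15 * r * t + t ^ 2) < 0 := mul_neg_of_neg_of_pos h2 h1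
      nlinarith [sq_nonneg N]
    · exact hpos
  -- coprimality
  have c1 : IsCoprime r (r ^ 2 - 15 * r * t + t ^ 2) := by
    have h1 : IsCoprime r (t ^ 2) := hcop.pow_right
    have h2 : IsCoprime r (t ^ 2 + r * (r - 15 * t)) := h1.add_mul_left_right _
    convert h2 using 1; ring
  have c2 : IsCoprime t (r ^ 2 - 15 * r * t + t ^ 2) := by
    have h1 : IsCoprime t (r ^ 2) := hcop.symm.pow_right
    have h2 : IsCoprime t (r ^ 2 + t * (t - 15 * r)) := h1.add_mul_left_right _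
    convert h2 using 1; ring
  obtain ⟨m, hm⟩ : ∃ m : ℤ, r = m ^ 2 := by
    have hc : IsCoprime r (t * (r ^ 2 - 15 * r * t + t ^ 2)) := hcop.mul_right c1
    obtain ⟨m, hm | hm⟩ := Int.sq_of_isCoprime hc (by rw [hNi]; ring)
    · exact ⟨m, hm⟩
    · exfalso; nlinarith [sq_nonneg m]
  obtain ⟨n, hn⟩ : ∃ n : ℤ, t = n ^ 2 := by
    have hc : IsCoprime t (r * (r ^ 2 - 15 * r * t + t ^ 2)) := hcop.symm.mul_right c2
    obtain ⟨m, hm | hm⟩ := Int.sq_of_isCoprime hc (by rw [hNi]; ring)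
    · exact ⟨m, hm⟩
    · exfalso; nlinarith [sq_nonneg m]
  obtain ⟨k, hk⟩ : ∃ k : ℤ, r ^ 2 - 15 * r * t + t ^ 2 = k ^ 2 := by
    have hc : IsCoprime (r ^ 2 - 15 * r * t + t ^ 2) (r * t) := (c1.mul_left c2).symm
    obtain ⟨m, hm | hm⟩ := Int.sq_of_isCoprime hc (by rw [hNi]; ring)
    · exact ⟨m, hm⟩
    · refine ⟨0, ?_⟩
      have hrt : 0 < r * t := mul_pos hrpos ht0
      have h1 : N ^ 2 = r * t * (-m ^ 2) := by rw [← hm]; exact hNi
      have h2 : m ^ 2 = 0 := by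
        by_contra hne
        have : 0 < m ^ 2 := lt_of_le_of_ne (sq_nonneg m) (Ne.symm hne)
        nlinarith [sq_nonneg N, mul_pos hrt this]
      rw [hm, h2]; ring
  refine ⟨m, n, k, ?_, ?_, ?_, ?_⟩
  · rintro rfl; rw [hn] at ht0; norm_num at ht0
  · rw [hm, hn] at hcop
    exact (IsCoprime.pow_iff (by norm_num) (by norm_num)).mp hcop
  · rw [hxrt, hm, hn]; push_cast; rfl
  · rw [← hk, hm, hn]; ring

end Pool.Agent.Lib.MP_a1cdeb_nt
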