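import Mathlib
import Pool.Agent.Lib.MP_a1cdeb_nt.Arith
import Pool.Agent.Lib.MP_a1cdeb_nt.RatPoint
import Pool.Agent.Lib.MP_a1cdeb_nt.CharSum
import Pool.Agent.Lib.MP_a1cdeb_nt.Hensel

namespace Pool.Agent.Lib.MP_a1cdeb_nt

section
variable {p : ℕ} [hp : Fact p.Prime]

/-- If a rational square is `p`-adically close to the `p`-adic integer `c` then `c` is a square
modulo `p`. -/
lemma isSquare_of_close (c : ℤ_[p]) (s : ℚ_[p]) (h : ‖s ^ 2 - (c : ℚ_[p])‖ < 1) :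
    IsSquare (PadicInt.toZMod c) := by
  have hs : ‖s‖ ≤ 1 := by
    have h1 : ‖s ^ 2‖ ≤ 1 := by
      have : s ^ 2 = (s ^ 2 - (c : ℚ_[p])) + c := by ring
      rw [this]
      refine (Padic.nonarchimedean _ _).trans (max_le h.le ?_)
      exact c.2
    rw [norm_pow] at h1
    by_contra hcon
    push Not at hcon
    nlinarith [norm_nonneg s]
  set s' : ℤ_[p] := ⟨s, hs⟩ with hs'
  have h2 : ‖s' ^ 2 - c‖ < 1 := by
    rw [PadicInt.norm_def, PadicInt.coe_sub, PadicInt.coe_pow]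
    exact h
  rw [← toZMod_eq_iff, map_pow] at h2
  exact ⟨PadicInt.toZMod s', by rw [← h2, sq]⟩

lemma no_rat_close (c : ℤ_[p]) (hc : ¬ IsSquare (PadicInt.toZMod c)) :
    ∀ x y : ℚ, y ^ 2 = x ^ 3 - 15 * x ^ 2 + x → ¬ ‖(x : ℚ_[p]) - c‖ < 1 := by
  intro x y hxy hclose
  apply hc
  by_cases hx : x = 0
  · subst hx
    apply isSquare_of_close c 0
    simpa using hclose
  · obtain ⟨m, n, k, hn, -, hxmn, -⟩ := rat_point hxy hx
    apply isSquare_of_close c ((m : ℚ_[p]) / (n : ℚ_[p]))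
    have : (x : ℚ_[p]) = ((m : ℚ_[p]) / (n : ℚ_[p])) ^ 2 := by
      rw [hxmn]; push_cast; rw [div_pow]
    rwa [← this]

/-- The local statement at the primes other than `2, 13, 17`. -/
lemma local_generic (h2 : p ≠ 2) (h13 : p ≠ 13) (h17 : p ≠ 17) :
    ∃ c : ℚ_[p], (∃ x y : ℚ_[p], y ^ 2 = x ^ 3 - 15 * x ^ 2 + x ∧ ‖x - c‖ < 1) ∧
      ∀ x y : ℚ, y ^ 2 = x ^ 3 - 15 * x ^ 2 + x → ¬ ‖(x : ℚ_[p]) - c‖ < 1 := by
  have hchar : ringChar (ZMod p) ≠ 2 := by rw [ZMod.ringChar_zmod_n]; exact h2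
  have h221 : (221 : ZMod p) ≠ 0 := by
    have e : (221 : ZMod p) = ((221 : ℕ) : ZMod p) := by norm_num
    rw [e, Ne, ZMod.natCast_eq_zero_iff]
    intro hd
    have h3 : p ∣ 13 * 17 := by simpa using hd
    rcases (Nat.Prime.dvd_mul hp.out).mp h3 with h | h
    · exact h13 ((Nat.prime_dvd_prime_iff_eq hp.out (by norm_num)).mp h)
    · exact h17 ((Nat.prime_dvd_prime_iff_eq hp.out (by norm_num)).mp h)
  have h2' : (2 : ZMod p) ≠ 0 := Ring.two_ne_zero hchar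
  obtain ⟨x₀, y₀, hx₀, hxy⟩ := exists_point hchar h221
  have hx00 : x₀ ≠ 0 := by
    rintro rfl
    exact hx₀ (IsSquare.zero)
  obtain ⟨x, y, hxy', hx⟩ := lift_point h221 h2' hx00 hxy
  refine ⟨x, ⟨x, y, ?_, by simp⟩, ?_⟩
  · exact_mod_cast congrArg (fun z : ℤ_[p] => (z : ℚ_[p])) hxy'
  · apply no_rat_close
    rw [hx]
    exact hx₀

/-- integers approximations: if `(m/n)^2` is within `< 1` of the integer `c`, with `m, n` coprime,
then `p ∣ m^2 - c n^2` and `p ∤ n`. -/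
lemma dvd_of_close {m n c : ℤ} (hmn : IsCoprime m n) (hn : n ≠ 0)
    (h : ‖((((m : ℚ) ^ 2 / (n : ℚ) ^ 2 : ℚ)) : ℚ_[p]) - (c : ℚ_[p])‖ < 1) :
    (p : ℤ) ∣ m ^ 2 - c * n ^ 2 ∧ ¬ (p : ℤ) ∣ n := by
  have hnq : (n : ℚ_[p]) ≠ 0 := by exact_mod_cast hn
  have e : ((m ^ 2 - c * n ^ 2 : ℤ) : ℚ_[p]) =
      (((((m : ℚ) ^ 2 / (n : ℚ) ^ 2 : ℚ)) : ℚ_[p]) - (c : ℚ_[p])) * (n : ℚ_[p]) ^ 2 := by
    push_cast
    field_simp
  have hn1 : ‖(n : ℚ_[p])‖ ≤ 1 := Padic.norm_int_le_one n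
  have hnpos : 0 < ‖(n : ℚ_[p])‖ := norm_pos_iff.mpr hnq
  have h1 : ‖((m ^ 2 - c * n ^ 2 : ℤ) : ℚ_[p])‖ < 1 := by
    rw [e, norm_mul, norm_pow]
    calc _ < 1 * ‖(n : ℚ_[p])‖ ^ 2 := by
          apply mul_lt_mul_of_pos_right h (by positivity)
      _ ≤ 1 := by nlinarith
  rw [Padic.norm_intCast_lt_one_iff] at h1
  refine ⟨h1, ?_⟩
  intro hpn
  have hpm : (p : ℤ) ∣ m ^ 2 := by
    have h3 : (p : ℤ) ∣ c * n ^ 2 := Dvd.dvd.mul_left (dvd_pow hpn two_ne_zero) c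
    have := dvd_add h1 h3
    simpa using this
  have hpm' : (p : ℤ) ∣ m := (Nat.prime_iff_prime_int.mp hp.out).dvd_of_dvd_pow hpm
  exact (Nat.prime_iff_prime_int.mp hp.out).not_isUnit (hmn.isUnit_of_dvd' hpm' hpn)

end

lemma dec13a : (5 : ZMod 13) ^ 2 = -105 := by decide

lemma dec13b : (2 : ZMod 13) * 5 ≠ 0 := by decide

lemma dec13c : ∀ n b : ZMod 13, n ≠ 0 → (2 * n ^ 2 - b ^ 2 = 0 ∨ 2 * n ^ 2 + b ^ 2 = 0) →
    False := by decide

lemma dec17a : (1 : ZMod 17) ^ 2 = -50 := by decide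

lemma dec17b : (2 : ZMod 17) * 1 ≠ 0 := by decide

lemma dec17c : ∀ n b : ZMod 17, n ≠ 0 → (3 * n ^ 2 - b ^ 2 = 0 ∨ 3 * n ^ 2 + b ^ 2 = 0) →
    False := by decide

/-- The local statement at `13`. -/
lemma local_13 [Fact (Nat.Prime 13)] :
    ∃ c : ℚ_[13], (∃ x y : ℚ_[13], y ^ 2 = x ^ 3 - 15 * x ^ 2 + x ∧ ‖x - c‖ < 1) ∧
      ∀ x y : ℚ, y ^ 2 = x ^ 3 - 15 * x ^ 2 + x → ¬ ‖(x : ℚ_[13]) - c‖ < 1 := by
  refine ⟨((3 : ℤ) : ℚ_[13]), ?_, ?_⟩
  · obtain ⟨y, hy, -⟩ := hensel_sqrt (p := 13) (5 : ℤ_[13]) (-105 : ℤ_[13])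
      (by simp only [map_neg, map_ofNat]; exact dec13a)
      (by simp only [map_mul, map_ofNat]; exact dec13b)
    refine ⟨3, y, ?_, by simp⟩
    have h := congrArg (fun z : ℤ_[13] => (z : ℚ_[13])) hy
    simp only [PadicInt.coe_pow, PadicInt.coe_neg] at h
    rw [h]
    have : ((105 : ℤ_[13]) : ℚ_[13]) = 105 := rfl
    rw [this]
    norm_num
  · intro x y hxy hclose
    by_cases hx : x = 0
    · subst hx
      have : ‖(((-3 : ℤ)) : ℚ_[13])‖ < 1 := by
        convert hclose using 2; push_cast; ring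
      rw [Padic.norm_intCast_lt_one_iff] at this
      norm_num at this
    · obtain ⟨m, n, k, hn, hmn, hxmn, hk⟩ := rat_point hxy hx
      rw [hxmn] at hclose
      obtain ⟨h1, h2⟩ := dvd_of_close hmn hn hclose
      obtain ⟨b, hb⟩ := cond13 hmn hk
      have h1' : (m : ZMod 13) ^ 2 - 3 * (n : ZMod 13) ^ 2 = 0 := by
        have := (ZMod.intCast_zmod_eq_zero_iff_dvd (m ^ 2 - 3 * n ^ 2) 13).mpr (by exact_mod_cast h1)
        push_cast at this; exact this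
      have h2' : (n : ZMod 13) ≠ 0 := by
        intro h0
        exact h2 (by exact_mod_cast (ZMod.intCast_zmod_eq_zero_iff_dvd n 13).mp h0)
      have hb' : (m : ZMod 13) ^ 2 - (n : ZMod 13) ^ 2 - (b : ZMod 13) ^ 2 = 0 ∨
          (m : ZMod 13) ^ 2 - (n : ZMod 13) ^ 2 + (b : ZMod 13) ^ 2 = 0 := by
        rcases hb with hb | hb
        · left
          have := (ZMod.intCast_zmod_eq_zero_iff_dvd _ 13).mpr (by exact_mod_cast hb)
          push_cast at this; exact this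
        · right
          have := (ZMod.intCast_zmod_eq_zero_iff_dvd _ 13).mpr (by exact_mod_cast hb)
          push_cast at this; exact this
      apply dec13c _ (b : ZMod 13) h2'
      rcases hb' with h | h
      · left; linear_combination h - h1'
      · right; linear_combination h - h1'

/-- The local statement at `17`. -/
lemma local_17 [Fact (Nat.Prime 17)] :
    ∃ c : ℚ_[17], (∃ x y : ℚ_[17], y ^ 2 = x ^ 3 - 15 * x ^ 2 + x ∧ ‖x - c‖ < 1) ∧
      ∀ x y : ℚ, y ^ 2 = x ^ 3 - 15 * x ^ 2 + x → ¬ ‖(x : ℚ_[17]) - c‖ < 1 := by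
  refine ⟨((2 : ℤ) : ℚ_[17]), ?_, ?_⟩
  · obtain ⟨y, hy, -⟩ := hensel_sqrt (p := 17) (1 : ℤ_[17]) (-50 : ℤ_[17])
      (by simp only [map_neg, map_ofNat, map_one]; exact dec17a)
      (by simp only [map_mul, map_ofNat, map_one]; exact dec17b)
    refine ⟨2, y, ?_, by simp⟩
    have h := congrArg (fun z : ℤ_[17] => (z : ℚ_[17])) hy
    simp only [PadicInt.coe_pow, PadicInt.coe_neg] at h
    rw [h]
    have : ((50 : ℤ_[17]) : ℚ_[17]) = 50 := rfl
    rw [this]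
    norm_num
  · intro x y hxy hclose
    by_cases hx : x = 0
    · subst hx
      have : ‖(((-2 : ℤ)) : ℚ_[17])‖ < 1 := by
        convert hclose using 2; push_cast; ring
      rw [Padic.norm_intCast_lt_one_iff] at this
      norm_num at this
    · obtain ⟨m, n, k, hn, hmn, hxmn, hk⟩ := rat_point hxy hx
      rw [hxmn] at hclose
      obtain ⟨h1, h2⟩ := dvd_of_close hmn hn hclose
      obtain ⟨b, hb⟩ := cond17 hmn hk
      have h1' : (m : ZMod 17) ^ 2 - 2 * (n : ZMod 17) ^ 2 = 0 := by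
        have := (ZMod.intCast_zmod_eq_zero_iff_dvd (m ^ 2 - 2 * n ^ 2) 17).mpr (by exact_mod_cast h1)
        push_cast at this; exact this
      have h2' : (n : ZMod 17) ≠ 0 := by
        intro h0
        exact h2 (by exact_mod_cast (ZMod.intCast_zmod_eq_zero_iff_dvd n 17).mp h0)
      have hb' : (m : ZMod 17) ^ 2 + (n : ZMod 17) ^ 2 - (b : ZMod 17) ^ 2 = 0 ∨
          (m : ZMod 17) ^ 2 + (n : ZMod 17) ^ 2 + (b : ZMod 17) ^ 2 = 0 := by
        rcases hb with hb | hb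
        · left
          have := (ZMod.intCast_zmod_eq_zero_iff_dvd _ 17).mpr (by exact_mod_cast hb)
          push_cast at this; exact this
        · right
          have := (ZMod.intCast_zmod_eq_zero_iff_dvd _ 17).mpr (by exact_mod_cast hb)
          push_cast at this; exact this
      apply dec17c _ (b : ZMod 17) h2'
      rcases hb' with h | h
      · left; linear_combination h - h1'
      · right; linear_combination h - h1'

/-- The local statement at `2`. -/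
lemma local_2 [Fact (Nat.Prime 2)] :
    ∃ c : ℚ_[2], (∃ x y : ℚ_[2], y ^ 2 = x ^ 3 - 15 * x ^ 2 + x ∧ ‖x - c‖ < 1) ∧
      ∀ x y : ℚ, y ^ 2 = x ^ 3 - 15 * x ^ 2 + x → ¬ ‖(x : ℚ_[2]) - c‖ < 1 := by
  have hn2 : ‖(2 : ℚ_[2])‖ = 1 / 2 := by
    have := Padic.norm_p (p := 2)
    simpa using this
  refine ⟨5 / 4, ?_, ?_⟩
  · obtain ⟨w, hw, -⟩ := hensels_lemma (p := 2) (F := (Polynomial.X ^ 2 + Polynomial.C (1295 : ℤ_[2])))
      (a := 1) (by
        have e1 : (Polynomial.derivative (Polynomial.X ^ 2 + Polynomial.C (1295 : ℤ_[2]))).eval 1 = 2 := by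
          rw [Polynomial.derivative_add, Polynomial.derivative_X_pow, Polynomial.derivative_C]
          simp
        have e2 : ((Polynomial.X ^ 2 + Polynomial.C (1295 : ℤ_[2]))).eval 1 = 1296 := by
          simp; norm_num
        rw [Polynomial.coe_aeval_eq_eval, e1, e2]
        have n1 : ‖(2 : ℤ_[2])‖ = 1 / 2 := hn2
        have n2 : ‖(1296 : ℤ_[2])‖ = 1 / 16 := by
          have : (1296 : ℤ_[2]) = 2 ^ 4 * ((81 : ℤ) : ℤ_[2]) := by push_cast; norm_num
          rw [this, norm_mul, norm_pow, n1]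
          have h81 : ‖((81 : ℤ) : ℤ_[2])‖ = 1 := by
            rw [PadicInt.norm_intCast_eq_one_iff]
            decide
          rw [h81]; norm_num
        rw [n1, n2]; norm_num)
    rw [Polynomial.coe_aeval_eq_eval] at hw
    simp only [Polynomial.eval_add, Polynomial.eval_pow, Polynomial.eval_X, Polynomial.eval_C] at hw
    have h := congrArg (fun z : ℤ_[2] => (z : ℚ_[2])) hw
    simp only [PadicInt.coe_pow, PadicInt.coe_add, PadicInt.coe_zero] at h
    have h1295 : ((1295 : ℤ_[2]) : ℚ_[2]) = 1295 := rfl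
    rw [h1295] at h
    refine ⟨5 / 4, (w : ℚ_[2]) / 8, ?_, by simp⟩
    linear_combination (1 / 64) * h
  · intro x y hxy hclose
    obtain ⟨s, hs⟩ : ∃ s : ℚ_[2], (x : ℚ_[2]) = s ^ 2 := by
      by_cases hx : x = 0
      · exact ⟨0, by rw [hx]; simp⟩
      · obtain ⟨m, n, k, hn, -, hxmn, -⟩ := rat_point hxy hx
        refine ⟨(m : ℚ_[2]) / (n : ℚ_[2]), ?_⟩
        rw [hxmn]; push_cast; rw [div_pow]
    rw [hs] at hclose
    have h4 : ‖(2 * s) ^ 2 - 5‖ < 1 / 4 := by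
      have : (2 * s) ^ 2 - 5 = 2 ^ 2 * (s ^ 2 - 5 / 4) := by ring
      rw [this, norm_mul, norm_pow, hn2]
      nlinarith
    have ht : ‖2 * s‖ ≤ 1 := by
      have h1 : ‖(2 * s) ^ 2‖ ≤ 1 := by
        have : (2 * s) ^ 2 = ((2 * s) ^ 2 - 5) + ((5 : ℤ) : ℚ_[2]) := by push_cast; ring
        rw [this]
        refine (Padic.nonarchimedean _ _).trans (max_le (by linarith) (Padic.norm_int_le_one 5))
      rw [norm_pow] at h1
      by_contra hcon
      push Not at hcon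
      nlinarith [norm_nonneg (2 * s)]
    set t : ℤ_[2] := ⟨2 * s, ht⟩ with htdef
    have h5 : ‖t ^ 2 - 5‖ < ((2 : ℕ) : ℝ) ^ (-2 : ℤ) := by
      have e : ((t ^ 2 - 5 : ℤ_[2]) : ℚ_[2]) = (2 * s) ^ 2 - 5 := rfl
      rw [PadicInt.norm_def, e]
      norm_num
      norm_num at h4
      exact h4
    rw [PadicInt.norm_lt_pow_iff_norm_le_pow_sub_one] at h5
    have h6 : t ^ 2 - 5 ∈ Ideal.span {((2 : ℕ) : ℤ_[2]) ^ 3} := by
      rw [← PadicInt.norm_le_pow_iff_mem_span_pow]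
      convert h5 using 2
      norm_num
    rw [← PadicInt.ker_toZModPow, RingHom.mem_ker, map_sub, map_pow, map_ofNat] at h6
    revert h6
    generalize PadicInt.toZModPow 3 t = z
    revert z
    decide

end Pool.Agent.Lib.MP_a1cdeb_nt
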