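import Mathlib
import Pool.Agent.Lib.MP_a1cdeb_nt.Defs
import Pool.Agent.Lib.MP_a1cdeb_nt.LocalPoints

/-!
The curve `E : y^2 = x^3 - 15 x^2 + x` has positive rank and `E(ℚ)` is dense in `E(ℚ_p)` for no
prime `p`.

* every rational point of `E` has `x = 0`, `x = m^2 / n^2` (or is the point at infinity), while for
  every odd prime `p` not dividing `221 = 13 * 17`, and for `p = 2`, there are `p`-adic points whose
  `x`-coordinate is a nonsquare (for good odd `p` exactly half of `E(𝔽_p)` has this property);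
* at `13` the number `m^2 - n^2` is a square modulo `13`, at `17` the number `m^2 + n^2` is a square
  modulo `17`, and this is not so for all `p`-adic points;
* `((95/24)^2, 95 * 1951 / 24^3)` is a point of infinite order.
-/

open WeierstrassCurve Topology

namespace Pool.Agent.Lib.MP_a1cdeb_nt

section
variable {p : ℕ} [hp : Fact p.Prime]

/-- The set of `[X : Y : Z]` with `‖X - c Z‖ < ε ‖Z‖`. -/
def nbhd (c : ℚ_[p]) (ε : ℝ) : Set (Projectivization ℚ_[p] (Fin 3 → ℚ_[p])) :=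
  {P | ‖P.rep 0 - c * P.rep 2‖ < ε * ‖P.rep 2‖}

lemma mem_nbhd_mk (c : ℚ_[p]) (ε : ℝ) (v : Fin 3 → ℚ_[p]) (hv : v ≠ 0) :
    Projectivization.mk ℚ_[p] v hv ∈ nbhd c ε ↔ ‖v 0 - c * v 2‖ < ε * ‖v 2‖ := by
  obtain ⟨a, ha⟩ := Projectivization.exists_smul_eq_mk_rep ℚ_[p] v hv
  unfold nbhd
  rw [Set.mem_ofPred_eq, ← ha]
  have ha0 : 0 < ‖(a : ℚ_[p])‖ := norm_pos_iff.mpr a.ne_zero
  have e1 : (a • v) 0 - c * (a • v) 2 = (a : ℚ_[p]) * (v 0 - c * v 2) := by
    simp only [Pi.smul_apply, Units.smul_def, smul_eq_mul]; ring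
  have e2 : (a • v) 2 = (a : ℚ_[p]) * v 2 := by
    simp only [Pi.smul_apply, Units.smul_def, smul_eq_mul]
  rw [e1, e2, norm_mul, norm_mul]
  constructor
  · intro h
    have : ‖(a : ℚ_[p])‖ * ‖v 0 - c * v 2‖ < ‖(a : ℚ_[p])‖ * (ε * ‖v 2‖) := by linarith
    exact lt_of_mul_lt_mul_left this ha0.le
  · intro h
    have := mul_lt_mul_of_pos_left h ha0
    linarith

lemma isOpen_nbhd (c : ℚ_[p]) (ε : ℝ) : IsOpen[planeTopology ℚ_[p]] (nbhd c ε) := by
  unfold planeTopology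
  rw [isOpen_coinduced]
  have : (fun v : {v : Fin 3 → ℚ_[p] // v ≠ 0} => Projectivization.mk ℚ_[p] v.1 v.2) ⁻¹' nbhd c ε
      = {v | ‖v.1 0 - c * v.1 2‖ < ε * ‖v.1 2‖} := by
    ext v
    rw [Set.mem_preimage, mem_nbhd_mk]
    rfl
  rw [this]
  have c0 : Continuous fun v : {v : Fin 3 → ℚ_[p] // v ≠ 0} => v.1 0 :=
    (continuous_apply 0).comp continuous_subtype_val
  have c2 : Continuous fun v : {v : Fin 3 → ℚ_[p] // v ≠ 0} => v.1 2 :=
    (continuous_apply 2).comp continuous_subtype_val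
  exact isOpen_lt (c0.sub (continuous_const.mul c2)).norm (continuous_const.mul c2.norm)

/-- the curve `y^2 = x^3 - 15 x^2 + x` -/
def curve : WeierstrassCurve ℚ := ⟨0, -15, 0, 1, 0⟩

instance : curve.IsElliptic := by
  rw [isElliptic_iff]
  have : curve.Δ = 3536 := by
    simp [curve, WeierstrassCurve.Δ, WeierstrassCurve.b₂, WeierstrassCurve.b₄,
      WeierstrassCurve.b₆, WeierstrassCurve.b₈]
    norm_num
  rw [this]
  norm_num

instance (K : Type*) [Field K] [Algebra ℚ K] : (curve⁄K).IsElliptic :=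
  inferInstanceAs ((curve.map (algebraMap ℚ K)).IsElliptic)

lemma equation_iff' {K : Type*} [Field K] [Algebra ℚ K] (x y : K) :
    Affine.Equation (curve⁄K) x y ↔ y ^ 2 = x ^ 3 - 15 * x ^ 2 + x := by
  rw [Affine.equation_iff]
  simp only [WeierstrassCurve.baseChange, WeierstrassCurve.map, curve, map_zero, map_neg, map_one,
    map_ofNat]
  constructor
  · intro h; linear_combination h
  · intro h; linear_combination h

open scoped Classical in
lemma not_dense_of (c : ℚ_[p]) (ε : ℝ)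
    (hex : ∃ x y : ℚ_[p], y ^ 2 = x ^ 3 - 15 * x ^ 2 + x ∧ ‖x - c‖ < ε)
    (hno : ∀ x y : ℚ, y ^ 2 = x ^ 3 - 15 * x ^ 2 + x → ¬ ‖(x : ℚ_[p]) - c‖ < ε) :
    p ∉ densitySet curve := by
  rintro ⟨_, hd⟩
  obtain ⟨x, y, hxy, hx⟩ := hex
  let _ := pointTopology (curve⁄ℚ_[p])
  have hO : IsOpen (toPlane ⁻¹' nbhd c ε : Set (Affine.Point (curve⁄ℚ_[p]))) :=
    isOpen_induced (t := planeTopology ℚ_[p]) (isOpen_nbhd c ε)
  have hns : Affine.Nonsingular (curve⁄ℚ_[p]) x y :=
    Affine.equation_iff_nonsingular.mp ((equation_iff' x y).mpr hxy)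
  have hne : (toPlane ⁻¹' nbhd c ε : Set (Affine.Point (curve⁄ℚ_[p]))).Nonempty := by
    refine ⟨.some x y hns, ?_⟩
    rw [Set.mem_preimage]
    unfold toPlane
    rw [mem_nbhd_mk]
    simpa using hx
  obtain ⟨Q, hQ, P, rfl⟩ := Dense.inter_open_nonempty hd _ hO hne
  rw [Set.mem_preimage] at hQ
  rcases P with _ | ⟨x', y', h'⟩
  · have e : toPlane (Affine.Point.baseChange (W' := curve) ℚ ℚ_[p] .zero) =
      Projectivization.mk ℚ_[p] ![0, 1, 0] (fun h => one_ne_zero (congrFun h 1)) := rfl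
    rw [e, mem_nbhd_mk] at hQ
    simp at hQ
  · have e : toPlane (Affine.Point.baseChange (W' := curve) ℚ ℚ_[p] (.some x' y' h')) =
      Projectivization.mk ℚ_[p] ![(x' : ℚ_[p]), (y' : ℚ_[p]), 1]
        (fun h => one_ne_zero (congrFun h 2)) := rfl
    rw [e, mem_nbhd_mk] at hQ
    simp at hQ
    exact hno x' y' ((equation_iff' (K := ℚ) x' y').mp h'.1) hQ

end

lemma not_mem_densitySet (p : ℕ) : p ∉ densitySet curve := by
  intro hp
  obtain ⟨hfact, -⟩ := id hp
  revert hp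
  by_cases h2 : p = 2
  · subst h2
    obtain ⟨c, h1, h3⟩ := local_2
    exact not_dense_of c 1 h1 h3
  by_cases h13 : p = 13
  · subst h13
    obtain ⟨c, h1, h3⟩ := local_13
    exact not_dense_of c 1 h1 h3
  by_cases h17 : p = 17
  · subst h17
    obtain ⟨c, h1, h3⟩ := local_17
    exact not_dense_of c 1 h1 h3
  · obtain ⟨c, h1, h3⟩ := local_generic (p := p) h2 h13 h17
    exact not_dense_of c 1 h1 h3

/-! ### A point of infinite order -/

/-- `2`-adic size of the `x`-coordinate -/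
noncomputable def size : Affine.Point (curve⁄ℚ) → ℝ
  | .zero => 0
  | .some x _ _ => ‖(x : ℚ_[2])‖

lemma norm_two : ‖(2 : ℚ_[2])‖ = 1 / 2 := by
  have := Padic.norm_p (p := 2)
  simpa using this

lemma size_double (P : Affine.Point (curve⁄ℚ)) (h : 1 < size P) : size (P + P) = 4 * size P := by
  rcases P with _ | ⟨x, y, hP⟩
  · simp only [size] at h
    norm_num at h
  · have hx : 1 < ‖(x : ℚ_[2])‖ := h
    have heq : y ^ 2 = x ^ 3 - 15 * x ^ 2 + x := (equation_iff' (K := ℚ) x y).mp hP.1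
    have heq2 : (y : ℚ_[2]) ^ 2 = (x : ℚ_[2]) * ((x : ℚ_[2]) ^ 2 + (-15 * (x : ℚ_[2]) + 1)) := by
      have := congrArg (fun z : ℚ => (z : ℚ_[2])) heq
      push_cast at this
      rw [this]; ring
    have hx2 : ‖(x : ℚ_[2])‖ < ‖(x : ℚ_[2])‖ ^ 2 := by nlinarith
    have n1 : ‖-15 * (x : ℚ_[2]) + 1‖ < ‖(x : ℚ_[2]) ^ 2‖ := by
      rw [norm_pow]
      have h15 : ‖(-15 : ℚ_[2])‖ ≤ 1 := by
        have := Padic.norm_int_le_one (p := 2) (-15)
        simpa using this
      refine lt_of_le_of_lt (Padic.nonarchimedean _ _) (max_lt ?_ ?_)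
      · rw [norm_mul]; nlinarith [norm_nonneg (x : ℚ_[2])]
      · rw [norm_one]; nlinarith
    have n2 : ‖(x : ℚ_[2]) ^ 2 + (-15 * (x : ℚ_[2]) + 1)‖ = ‖(x : ℚ_[2])‖ ^ 2 := by
      rw [Padic.add_eq_max_of_ne n1.ne', max_eq_left n1.le, norm_pow]
    have n3 : ‖(y : ℚ_[2])‖ ^ 2 = ‖(x : ℚ_[2])‖ ^ 3 := by
      rw [← norm_pow, heq2, norm_mul, n2]; ring
    have hypos : 0 < ‖(y : ℚ_[2])‖ := by
      rcases (norm_nonneg (y : ℚ_[2])).eq_or_lt with h0 | h0
      · rw [← h0] at n3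
        have : 0 < ‖(x : ℚ_[2])‖ ^ 3 := by positivity
        nlinarith
      · exact h0
    have hy0 : y ≠ 0 := by
      rintro rfl
      simp at hypos
    have n4 : ‖(x : ℚ_[2]) ^ 2 - 1‖ = ‖(x : ℚ_[2])‖ ^ 2 := by
      have n5 : ‖(-1 : ℚ_[2])‖ < ‖(x : ℚ_[2]) ^ 2‖ := by
        rw [norm_neg, norm_one, norm_pow]; nlinarith
      rw [sub_eq_add_neg, Padic.add_eq_max_of_ne n5.ne', max_eq_left n5.le, norm_pow]
    have hy : y ≠ Affine.negY (curve⁄ℚ) x y := by
      have : Affine.negY (curve⁄ℚ) x y = -y := by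
        simp [Affine.negY, WeierstrassCurve.baseChange, WeierstrassCurve.map, curve]
      rw [this]
      intro h0
      apply hy0
      linarith
    rw [Affine.Point.add_self_of_Y_ne hy]
    show ‖((Affine.addX (curve⁄ℚ) x x (Affine.slope (curve⁄ℚ) x x y y) : ℚ) : ℚ_[2])‖ =
      4 * ‖(x : ℚ_[2])‖
    have e : Affine.addX (curve⁄ℚ) x x (Affine.slope (curve⁄ℚ) x x y y) =
        (x ^ 2 - 1) ^ 2 / (2 * y) ^ 2 := by
      rw [Affine.slope_of_Y_ne rfl hy]
      simp only [Affine.addX, Affine.negY, WeierstrassCurve.baseChange, WeierstrassCurve.map, curve,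
        map_zero, map_neg, map_one, map_ofNat]
      have e1 : y - (-y - 0 * x - 0) = 2 * y := by ring
      have e2 : 3 * x ^ 2 + 2 * -15 * x + 1 - 0 * y = 3 * x ^ 2 - 30 * x + 1 := by ring
      rw [e1, e2]
      have h2y : (2 * y) ^ 2 ≠ 0 := pow_ne_zero 2 (mul_ne_zero two_ne_zero hy0)
      rw [eq_div_iff h2y]
      have e3 : ((3 * x ^ 2 - 30 * x + 1) / (2 * y)) ^ 2 * (2 * y) ^ 2 =
          (3 * x ^ 2 - 30 * x + 1) ^ 2 := by
        rw [← mul_pow, div_mul_cancel₀ _ (mul_ne_zero two_ne_zero hy0)]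
      linear_combination e3 + (60 - 8 * x) * heq
    rw [e]
    push_cast
    rw [norm_div, norm_pow, norm_pow, norm_mul, n4, norm_two]
    rw [mul_pow, n3]
    have hxpos : 0 < ‖(x : ℚ_[2])‖ := by linarith
    field_simp
    ring

/-- The point `((95/24)^2, 95 * 1951 / 24^3)`. -/
def basePoint : Affine.Point (curve⁄ℚ) :=
  .some (9025 / 576) (185345 / 13824)
    (Affine.equation_iff_nonsingular.mp ((equation_iff' (K := ℚ) _ _).mpr (by norm_num)))

lemma size_basePoint : size basePoint = 64 := by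
  show ‖(((9025 / 576 : ℚ)) : ℚ_[2])‖ = 64
  have e : (((9025 / 576 : ℚ)) : ℚ_[2]) = ((9025 : ℤ) : ℚ_[2]) / (2 ^ 6 * ((9 : ℤ) : ℚ_[2])) := by
    push_cast; norm_num
  have h1 : ‖((9025 : ℤ) : ℚ_[2])‖ = 1 := by
    rw [Padic.norm_intCast_eq_one_iff]; decide
  have h2 : ‖((9 : ℤ) : ℚ_[2])‖ = 1 := by
    rw [Padic.norm_intCast_eq_one_iff]; decide
  rw [e, norm_div, norm_mul, norm_pow, norm_two, h1, h2]
  norm_num

lemma size_pow (k : ℕ) : size (2 ^ k • basePoint) = 4 ^ k * 64 := by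
  induction k with
  | zero => simp [size_basePoint]
  | succ k ih =>
    have h1 : (1 : ℝ) ≤ 4 ^ k := one_le_pow₀ (by norm_num)
    rw [pow_succ, mul_nsmul, two_nsmul, size_double _ (by rw [ih]; nlinarith), ih]
    ring

lemma basePoint_infinite : ¬ IsOfFinAddOrder basePoint := by
  intro h
  rw [← finite_multiples] at h
  have hinj : Function.Injective (fun k : ℕ => 2 ^ k • basePoint) := by
    intro a b hab
    have h1 : size (2 ^ a • basePoint) = size (2 ^ b • basePoint) := congrArg size hab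
    rw [size_pow, size_pow] at h1
    have h2 : (4 : ℝ) ^ a = 4 ^ b := by linarith
    exact pow_right_injective₀ (by norm_num : (0 : ℝ) < 4) (by norm_num) h2
  have hsub : Set.range (fun k : ℕ => 2 ^ k • basePoint) ⊆
      (AddSubmonoid.multiples basePoint : Set _) := by
    rintro _ ⟨k, rfl⟩
    exact ⟨2 ^ k, rfl⟩
  exact Set.infinite_range_of_injective hinj (h.subset hsub)

lemma infinite_points : Infinite (Affine.Point (curve⁄ℚ)) := by
  by_contra h
  rw [not_infinite_iff_finite] at h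
  exact basePoint_infinite (isOfFinAddOrder_of_finite basePoint)

end Pool.Agent.Lib.MP_a1cdeb_nt
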